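import Pool.Agent.X11.DS.SPB

/-!
The least balance constants of given width are attained.
-/

set_option autoImplicit false

open Finset

namespace Pool.Agent.X11.DS

open Pool.Agent.H13R3.WB Pool.Agent.H931R3.Bal

/-- infimum of the balance constants of all posets of width `w` -/
noncomputable def dAll (w : ℕ) : ℝ :=
  sInf {v : ℝ | ∃ (P : Type) (_ : Fintype P) (_ : PartialOrder P), HasWidth P w ∧ balance P = v}

/-- infimum of the balance constants of the posets of width `w` whose incomparability graphs have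
components of diameter at most `d` -/
noncomputable def dDiam (d w : ℕ) : ℝ :=
  sInf {v : ℝ | ∃ (P : Type) (_ : Fintype P) (_ : PartialOrder P), DiamLe d P ∧ HasWidth P w ∧
    balance P = v}

lemma isLeast_sInf {S : Set ℝ} {c s₀ : ℝ} (h0 : s₀ ∈ S) (h1 : s₀ ≤ c)
    (hf : {v | v ≤ c ∧ v ∈ S}.Finite) : IsLeast S (sInf S) := by
  obtain ⟨m, hm, hmin⟩ := Set.exists_min_image _ id hf ⟨s₀, h1, h0⟩
  have h2 : IsLeast S m := by
    refine ⟨hm.2, fun v hv => ?_⟩
    rcases le_or_gt v c with h | h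
    · exact hmin v ⟨h, hv⟩
    · exact hm.1.trans h.le
  rw [h2.csInf_eq]
  exact h2

lemma balance_rat (P : Type) [Fintype P] [PartialOrder P] : ∃ q : ℚ, (q : ℝ) = balance P := by
  rcases bal_cases (P := P) with h | ⟨x, y, -, h⟩
  · exact ⟨0, by rw [h]; simp⟩
  · have key : ∀ x y : P, ∃ q : ℚ, (q : ℝ) = prob P x y := by
      intro x y
      obtain ⟨a, b, -, -, h3⟩ := prob_frac (le_refl (Fintype.card P)) x y
      exact ⟨(a : ℚ) / b, by rw [h3]; push_cast; rfl⟩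
    obtain ⟨q1, h1⟩ := key x y
    obtain ⟨q2, h2⟩ := key y x
    exact ⟨min q1 q2, by rw [h, Rat.cast_min, h1, h2]⟩

section general

variable (C : ∀ (P : Type) [PartialOrder P], Prop)

/-- the balance constants of the posets of width `w` in the class `C` -/
def Vals (w : ℕ) : Set ℝ :=
  {v : ℝ | ∃ (P : Type) (_ : Fintype P) (_ : PartialOrder P), C P ∧ HasWidth P w ∧ balance P = v}

/-- the class is closed under components and the components have diameter at most `d` -/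
structure Cls (d : ℕ) : Prop where
  diam : ∀ (P : Type) [PartialOrder P], C P → DiamLe d P
  comp : ∀ (P : Type) [PartialOrder P] (x : P), C P → C (DS.comp x)
  sp : ∀ (P : Type) [PartialOrder P], SeriesParallel P → C P

variable {C}

lemma exists_lt {d : ℕ} (hC : Cls C d) {w : ℕ} (hw : 1 ≤ w) :
    ∃ v ∈ Vals C w, v ≤ 1 / 2 - 1 / (12 * (w : ℝ) - 8) := by
  obtain ⟨P, _, _, h1, h2, h3⟩ := exists_sp w hw
  exact ⟨balance P, ⟨P, _, _, hC.sp P h1, h2, rfl⟩, h3⟩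

lemma pos_w {w : ℕ} (hw : 1 ≤ w) : (0 : ℝ) < 12 * (w : ℝ) - 8 := by
  have hw1 : (1 : ℝ) ≤ w := by exact_mod_cast hw
  linarith

theorem least {d : ℕ} (hC : Cls C d) {w : ℕ} (hw : 1 ≤ w) :
    IsLeast (Vals C w) (sInf (Vals C w)) ∧ sInf (Vals C w) ≤ 1 / 2 - 1 / (12 * (w : ℝ) - 8) := by
  obtain ⟨v, hv, hle⟩ := exists_lt hC hw
  have hlt : v < 1 / 2 := by
    have := one_div_pos.2 (pos_w hw)
    linarith
  have h1 : IsLeast (Vals C w) (sInf (Vals C w)) := by
    refine isLeast_sInf hv le_rfl ((finite_spectrum d v hlt).subset ?_)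
    rintro u ⟨hu, P, _, _, h2, _, h3⟩
    exact ⟨hu, P, _, _, hC.diam P h2, h3⟩
  exact ⟨h1, (h1.2 hv).trans hle⟩

theorem least_small {d : ℕ} (hC : Cls C d) {w : ℕ} (hw : 1 ≤ w) {ε : ℝ} {D : ℕ}
    (hT : Thin ε D) (hlt : sInf (Vals C w) < 1 / 2 - ε) :
    ∃ (P : Type) (_ : Fintype P) (_ : PartialOrder P), C P ∧ HasWidth P w ∧
      balance P = sInf (Vals C w) ∧ Fintype.card P ≤ D ^ d := by
  classical
  obtain ⟨h1, -⟩ := least hC hw
  obtain ⟨P, _, _, hP, hPw, hPb⟩ := h1.1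
  obtain ⟨x, hx⟩ := width_comp hw hPw
  have hb : balance (DS.comp x) ≤ balance P := bal_comp_le x
  refine ⟨DS.comp x, inferInstance, inferInstance, hC.comp P x hP, hx, ?_, ?_⟩
  · apply le_antisymm
    · rw [← hPb]; exact hb
    · exact h1.2 ⟨DS.comp x, _, _, hC.comp P x hP, hx, rfl⟩
  · exact card_comp hT (hC.diam P hP) (by rw [hPb]; exact hlt) x

/-- the minimum is attained by a poset of explicitly bounded size -/
theorem least_explicit {d : ℕ} (hC : Cls C d) {B : ℝ} (hB : ∀ ε : ℝ, 0 < ε → ε ≤ 1 / 2 →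
    Thin ε ⌈Real.exp (B * Real.log (2 / ε) ^ 3 / ε ^ 4)⌉₊) {w : ℕ} (hw : 1 ≤ w) :
    ∃ (P : Type) (_ : Fintype P) (_ : PartialOrder P), C P ∧ HasWidth P w ∧
      balance P = sInf (Vals C w) ∧ Fintype.card P ≤
        ⌈Real.exp (B * Real.log (24 * w - 14) ^ 3 * (12 * w - 7) ^ 4)⌉₊ ^ d := by
  have hw1 : (1 : ℝ) ≤ w := by exact_mod_cast hw
  have h7 : (0 : ℝ) < 12 * (w : ℝ) - 7 := by linarith
  have h1 : (1 : ℝ) / (12 * w - 7) ≤ 1 / 2 := by
    apply one_div_le_one_div_of_le (by norm_num)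
    linarith
  have h2 := hB (1 / (12 * w - 7)) (by positivity) h1
  have e : B * Real.log (2 / (1 / (12 * (w : ℝ) - 7))) ^ 3 / (1 / (12 * w - 7)) ^ 4 =
      B * Real.log (24 * w - 14) ^ 3 * (12 * w - 7) ^ 4 := by
    rw [show 2 / (1 / (12 * (w : ℝ) - 7)) = 24 * w - 14 by field_simp; ring]
    rw [one_div, inv_pow, div_inv_eq_mul]
  rw [e] at h2
  refine least_small hC hw h2 ((least hC hw).2.trans_lt ?_)
  have h3 : 1 / (12 * (w : ℝ) - 7) < 1 / (12 * w - 8) :=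
    one_div_lt_one_div_of_lt (pos_w hw) (by linarith)
  linarith

theorem least_rat {d : ℕ} (hC : Cls C d) {w : ℕ} (hw : 1 ≤ w) :
    ∃ q : ℚ, (q : ℝ) = sInf (Vals C w) := by
  obtain ⟨P, _, _, -, -, hPb⟩ := (least hC hw).1.1
  rw [← hPb]
  exact balance_rat P

theorem finite_widths {d : ℕ} (hC : Cls C d) {c : ℝ} (hc : c < 1 / 2) :
    {w : ℕ | sInf (Vals C w) ≤ c}.Finite := by
  classical
  obtain ⟨B, -, h⟩ := exists_thin
  set ε : ℝ := min (1 / 2) ((1 / 2 - c) / 2) with hε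
  have hε0 : 0 < ε := lt_min (by norm_num) (by linarith)
  have hεc : c < 1 / 2 - ε := by
    have := min_le_right (1 / 2) ((1 / 2 - c) / 2)
    rw [← hε] at this
    linarith
  have hT := h ε hε0 (min_le_left _ _)
  set D := ⌈Real.exp (B * Real.log (2 / ε) ^ 3 / ε ^ 4)⌉₊
  refine (Set.finite_Iic (D + 1)).subset ?_
  intro w hw
  rw [Set.mem_Iic]
  by_contra hlt
  obtain ⟨P, _, _, -, ⟨⟨s, hs, hsc⟩, -⟩, hPb⟩ := (least hC (show 1 ≤ w by omega)).1.1
  have hb : balance P < 1 / 2 - ε := by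
    rw [hPb]
    exact lt_of_le_of_lt hw hεc
  obtain ⟨x, hx⟩ := Finset.card_pos.1 (show 0 < s.card by omega)
  have h1 := hT P hb x
  rw [Nat.card_eq_fintype_card, Fintype.card_subtype] at h1
  have h2 : s.erase x ⊆ univ.filter fun y : P => Inc x y := by
    intro y hy
    rw [mem_erase] at hy
    exact mem_filter.2 ⟨mem_univ _, hs hx hy.2 hy.1.symm, hs hy.2 hx hy.1⟩
  have h3 := card_le_card h2
  rw [card_erase_of_mem hx, hsc] at h3
  omega

end general

lemma cls_diam {d : ℕ} (hd : 2 ≤ d) : Cls (fun P _ => DiamLe d P) d where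
  diam _ _ h := h
  comp _ _ x h := DiamLe.comp h x
  sp _ _ h := (sp_diam h).2.mono hd

lemma cls_sp : Cls (fun P _ => SeriesParallel P) 2 where
  diam _ _ h := (sp_diam h).2
  comp _ _ x h := sp_comp h x
  sp _ _ h := h

lemma bddBelow_vals (C : ∀ (P : Type) [PartialOrder P], Prop) (w : ℕ) : BddBelow (Vals C w) := by
  refine ⟨0, ?_⟩
  rintro v ⟨P, _, _, -, -, rfl⟩
  exact bal_nonneg

lemma exists_diam (P : Type) [Finite P] [PartialOrder P] : ∃ d, DiamLe d P := by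
  classical
  have := Fintype.ofFinite P
  have h : ∀ p : P × P, ∃ n, Relation.ReflTransGen Inc p.1 p.2 → Near n p.1 p.2 := by
    intro p
    by_cases hp : Relation.ReflTransGen Inc p.1 p.2
    · obtain ⟨n, hn⟩ := rtg_near hp
      exact ⟨n, fun _ => hn⟩
    · exact ⟨0, fun h => absurd h hp⟩
  choose n hn using h
  exact ⟨univ.sup n, fun x y hxy => near_mono (Finset.le_sup (mem_univ (x, y))) (hn (x, y) hxy)⟩

lemma dAll_le_dDiam {d w : ℕ} (hd : 2 ≤ d) (hw : 1 ≤ w) : dAll w ≤ dDiam d w := by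
  obtain ⟨v, hv, -⟩ := exists_lt (cls_diam hd) hw
  refine csInf_le_csInf ?_ ⟨v, hv⟩ ?_
  · refine ⟨0, ?_⟩
    rintro v ⟨P, _, _, -, rfl⟩
    exact bal_nonneg
  · rintro v ⟨P, _, _, -, h1, h2⟩
    exact ⟨P, _, _, h1, h2⟩

lemma dDiam_anti {d e w : ℕ} (hd : 2 ≤ d) (hde : d ≤ e) (hw : 1 ≤ w) : dDiam e w ≤ dDiam d w := by
  obtain ⟨v, hv, -⟩ := exists_lt (cls_diam hd) hw
  refine csInf_le_csInf (bddBelow_vals _ w) ⟨v, hv⟩ ?_
  rintro v ⟨P, _, _, h0, h1, h2⟩
  exact ⟨P, _, _, h0.mono hde, h1, h2⟩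

theorem tendsto_dDiam {w : ℕ} (hw : 1 ≤ w) :
    Filter.Tendsto (fun d => dDiam d w) Filter.atTop (nhds (dAll w)) := by
  rw [Metric.tendsto_atTop]
  intro η hη
  obtain ⟨v, hv, -⟩ := exists_lt (cls_diam le_rfl) hw
  obtain ⟨Q, _, _, _, hQw, hQb⟩ := hv
  have hne : {v : ℝ | ∃ (P : Type) (_ : Fintype P) (_ : PartialOrder P), HasWidth P w ∧
      balance P = v}.Nonempty := ⟨v, Q, _, _, hQw, hQb⟩
  obtain ⟨u, ⟨P, _, _, hPw, hPb⟩, hu⟩ := exists_lt_of_csInf_lt hne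
    (show sInf _ < dAll w + η by unfold dAll; linarith)
  obtain ⟨d, hd⟩ := exists_diam P
  refine ⟨max d 2, fun e he => ?_⟩
  have h1 := dAll_le_dDiam (d := e) (le_trans (le_max_right _ _) he) hw
  have h2 : dDiam e w ≤ u :=
    csInf_le (bddBelow_vals _ w) ⟨P, _, _, hd.mono (le_trans (le_max_left _ _) he), hPw, hPb⟩
  rw [Real.dist_eq, abs_of_nonneg (by linarith)]
  linarith

end Pool.Agent.X11.DS
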