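import Mathlib
import Pool.Agent.H931R3.Bal15

/-!
Components of the incomparability graph of a poset.
-/

set_option autoImplicit false

open Finset

namespace Pool.Agent.X11.DS

open Pool.Agent.H13R3.WB Pool.Agent.H931R3.Bal

/-- `x` and `y` are incomparable -/
def Inc {P : Type} [PartialOrder P] (x y : P) : Prop := ¬ x ≤ y ∧ ¬ y ≤ x

/-- `y` can be reached from `x` by at most `n` steps, each of them from an element to an
incomparable one -/
def Near {P : Type} [PartialOrder P] : ℕ → P → P → Prop
  | 0, x, y => x = y
  | n + 1, x, y => ∃ z, Near n x z ∧ (z = y ∨ Inc z y)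

/-- Any two elements in the same connected component of the incomparability graph have distance at
most `d` in this graph. -/
def DiamLe (d : ℕ) (P : Type) [PartialOrder P] : Prop :=
  ∀ x y : P, Relation.ReflTransGen Inc x y → Near d x y

section basic

variable {P : Type} [PartialOrder P]

lemma Inc.symm {x y : P} (h : Inc x y) : Inc y x := ⟨h.2, h.1⟩

lemma Inc.ne {x y : P} (h : Inc x y) : x ≠ y := fun e => h.1 e.le

lemma near_succ {n : ℕ} {x y : P} (h : Near n x y) : Near (n + 1) x y := ⟨y, h, Or.inl rfl⟩

lemma near_mono {n m : ℕ} (hnm : n ≤ m) {x y : P} (h : Near n x y) : Near m x y := by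
  induction m, hnm using Nat.le_induction with
  | base => exact h
  | succ m _ ih => exact near_succ ih

lemma near_rtg {n : ℕ} {x y : P} (h : Near n x y) : Relation.ReflTransGen Inc x y := by
  induction n generalizing y with
  | zero => rw [show x = y from h]
  | succ n ih =>
    obtain ⟨z, hz, rfl | hzy⟩ := h
    · exact ih hz
    · exact (ih hz).tail hzy

lemma rtg_near {x y : P} (h : Relation.ReflTransGen Inc x y) : ∃ n, Near n x y := by
  induction h with
  | refl => exact ⟨0, rfl⟩
  | tail _ hbc ih =>
    obtain ⟨n, hn⟩ := ih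
    exact ⟨n + 1, _, hn, Or.inr hbc⟩

lemma rtg_symm {x y : P} (h : Relation.ReflTransGen Inc x y) : Relation.ReflTransGen Inc y x := by
  induction h with
  | refl => exact Relation.ReflTransGen.refl
  | tail _ hbc ih => exact Relation.ReflTransGen.head hbc.symm ih

lemma near_one {x y : P} (h : Inc x y) : Near 1 x y := ⟨x, rfl, Or.inr h⟩

lemma near_two {x y z : P} (h : Inc x z) (h' : Inc z y) : Near 2 x y :=
  ⟨z, near_one h, Or.inr h'⟩

lemma DiamLe.mono {d e : ℕ} (hde : d ≤ e) (h : DiamLe d P) : DiamLe e P :=
  fun x y hxy => near_mono hde (h x y hxy)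

/-- the connected component of `x` in the incomparability graph -/
def comp (x : P) : Set P := {y | Relation.ReflTransGen Inc x y}

lemma self_mem_comp (x : P) : x ∈ comp x := Relation.ReflTransGen.refl

lemma comp_step {x a b : P} (ha : a ∈ comp x) (hab : Inc a b) : b ∈ comp x :=
  Relation.ReflTransGen.tail ha hab

lemma step_auto {x a b z : P} (ha : a ∈ comp x) (hab : Inc a b) (hz : z ∉ comp x) :
    (z ≤ a → z ≤ b) ∧ (a ≤ z → b ≤ z) := by
  have hb := comp_step ha hab
  constructor
  · intro h
    by_contra hzb
    by_cases hbz : b ≤ z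
    · exact hab.2 (hbz.trans h)
    · exact hz (comp_step hb ⟨hbz, hzb⟩)
  · intro h
    by_contra hbz
    by_cases hzb : z ≤ b
    · exact hab.1 (h.trans hzb)
    · exact hz (comp_step hb ⟨hbz, hzb⟩)

lemma comp_auto (x : P) : Autonomous (comp x) := by
  intro a ha b hb z hz
  have hab : Relation.ReflTransGen Inc a b := (rtg_symm ha).trans hb
  clear hb
  induction hab with
  | refl => exact ⟨id, id⟩
  | @tail c e hac hce ih =>
    have hc : c ∈ comp x := Relation.ReflTransGen.trans ha hac
    have h := step_auto hc hce hz
    exact ⟨fun h1 => h.1 (ih.1 h1), fun h1 => h.2 (ih.2 h1)⟩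

lemma near_sub {x : P} {n : ℕ} (a b : comp x) (h : Near n a.1 b.1) : Near n a b := by
  induction n generalizing b with
  | zero => exact Subtype.ext h
  | succ n ih =>
    obtain ⟨z, hz, hzb⟩ := h
    have hzm : z ∈ comp x := Relation.ReflTransGen.trans a.2 (near_rtg hz)
    refine ⟨⟨z, hzm⟩, ih ⟨z, hzm⟩ hz, ?_⟩
    rcases hzb with h | h
    · exact Or.inl (Subtype.ext h)
    · exact Or.inr h

lemma sub_rtg {x : P} {a b : comp x} (h : Relation.ReflTransGen Inc a b) :
    Relation.ReflTransGen Inc a.1 b.1 := by
  induction h with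
  | refl => exact Relation.ReflTransGen.refl
  | tail _ hbc ih => exact ih.tail hbc

lemma DiamLe.comp {d : ℕ} (h : DiamLe d P) (x : P) : DiamLe d (comp x) :=
  fun a b hab => near_sub a b (h a.1 b.1 (sub_rtg hab))

/-- every component is connected -/
lemma comp_near {d : ℕ} (h : DiamLe d P) (x : P) (a b : DS.comp x) : Near d a b :=
  near_sub a b (h a.1 b.1 ((rtg_symm a.2).trans b.2))

end basic

section count

variable {P : Type} [Finite P] [PartialOrder P]

lemma card_near {D : ℕ} (hD : ∀ x : P, Nat.card {y : P // Inc x y} + 1 ≤ D) (n : ℕ) (x : P) :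
    Nat.card {y : P // Near n x y} ≤ D ^ n := by
  classical
  have := Fintype.ofFinite P
  induction n with
  | zero =>
    have : Nat.card {y : P // Near 0 x y} = 1 := by
      rw [Nat.card_eq_one_iff_unique]
      refine ⟨⟨fun a b => Subtype.ext ?_⟩, ⟨⟨x, rfl⟩⟩⟩
      exact (show x = a.1 from a.2).symm.trans (show x = b.1 from b.2)
    rw [this]
    simp
  | succ n ih =>
    rw [Nat.card_eq_fintype_card, Fintype.card_subtype] at ih ⊢
    have h1 : (univ.filter fun y : P => Near (n + 1) x y) ⊆
        (univ.filter fun y : P => Near n x y).biUnion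
          (fun z => insert z (univ.filter fun y : P => Inc z y)) := by
      intro y hy
      obtain ⟨z, hz, hzy⟩ := (mem_filter.1 hy).2
      rw [mem_biUnion]
      refine ⟨z, mem_filter.2 ⟨mem_univ _, hz⟩, ?_⟩
      rw [mem_insert, mem_filter]
      rcases hzy with h | h
      · exact Or.inl h.symm
      · exact Or.inr ⟨mem_univ _, h⟩
    refine (card_le_card h1).trans ?_
    refine (card_biUnion_le_card_mul _ _ D ?_).trans ?_
    · intro z _
      have h2 := hD z
      rw [Nat.card_eq_fintype_card, Fintype.card_subtype] at h2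
      exact (card_insert_le _ _).trans h2
    · rw [pow_succ]
      exact Nat.mul_le_mul_right _ ih

/-- the size of a poset whose incomparability graph has small diameter -/
lemma card_of_near {D d : ℕ} (hD : ∀ x : P, Nat.card {y : P // Inc x y} + 1 ≤ D) (x : P)
    (h : ∀ y, Near d x y) : Nat.card P ≤ D ^ d := by
  refine le_trans (le_of_eq ?_) (card_near hD d x)
  exact Nat.card_congr (Equiv.subtypeUnivEquiv h).symm

end count

/-- no induced path with `r` vertices in the incomparability graph -/
def NoInducedPath (r : ℕ) (P : Type) [PartialOrder P] : Prop :=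
  ¬ ∃ p : Fin r → P, Function.Injective p ∧
    ∀ i j : Fin r, Inc (p i) (p j) ↔ ((i : ℕ) + 1 = j ∨ (j : ℕ) + 1 = i)

section path

variable {P : Type} [PartialOrder P]

lemma path_aux (x : P) : ∀ (n : ℕ) (y : P), Near n x y → (∀ m < n, ¬ Near m x y) →
    ∃ p : ℕ → P, p n = y ∧ (∀ i ≤ n, Near i x (p i) ∧ ∀ m < i, ¬ Near m x (p i)) ∧
      ∀ i < n, Inc (p i) (p (i + 1)) := by
  intro n
  induction n with
  | zero =>
    intro y hy _
    refine ⟨fun _ => y, rfl, ?_, fun i hi => absurd hi (by omega)⟩
    intro i hi
    obtain rfl : i = 0 := by omega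
    exact ⟨hy, fun m hm => absurd hm (by omega)⟩
  | succ n ih =>
    intro y hy hmin
    obtain ⟨z, hz, hzy⟩ := hy
    have hzy' : Inc z y := by
      rcases hzy with h | h
      · subst h
        exact absurd hz (hmin n (by omega))
      · exact h
    have hzmin : ∀ m < n, ¬ Near m x z := by
      intro m hm hmz
      exact hmin (m + 1) (by omega) ⟨z, hmz, Or.inr hzy'⟩
    obtain ⟨p, hp1, hp2, hp3⟩ := ih z hz hzmin
    refine ⟨fun i => if i ≤ n then p i else y, by simp, ?_, ?_⟩
    · intro i hi
      rcases Nat.lt_or_ge n i with h | h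
      · obtain rfl : i = n + 1 := by omega
        simp only [show ¬ (n + 1 ≤ n) by omega, if_false]
        exact ⟨⟨z, hz, hzy⟩, hmin⟩
      · simp only [h, if_true]
        exact hp2 i h
    · intro i hi
      rcases Nat.lt_or_ge i n with h | h
      · simp only [show i ≤ n by omega, show i + 1 ≤ n by omega, if_true]
        exact hp3 i h
      · obtain rfl : i = n := by omega
        simp only [le_refl, show ¬ (i + 1 ≤ i) by omega, if_true, if_false]
        rw [hp1]
        exact hzy'

/-- Without induced paths on `d + 2` vertices the components have diameter at most `d`. -/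
theorem diamLe_of_noInducedPath {d : ℕ} (h : NoInducedPath (d + 2) P) : DiamLe d P := by
  classical
  intro x y hxy
  by_contra hcon
  have hex := rtg_near hxy
  set n := Nat.find hex with hn
  have h1 : Near n x y := Nat.find_spec hex
  have h2 : ∀ m < n, ¬ Near m x y := fun m hm => Nat.find_min hex hm
  have hdn : d + 1 ≤ n := by
    by_contra hlt
    exact hcon (near_mono (by omega) h1)
  obtain ⟨p, -, hp2, hp3⟩ := path_aux x n y h1 h2
  apply h
  refine ⟨fun i => p i, ?_, ?_⟩
  · intro i j hij
    have hij' : p i = p j := hij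
    have hi := i.2
    have hj := j.2
    apply Fin.ext
    by_contra hne
    rcases Nat.lt_or_gt_of_ne hne with hlt | hlt
    · exact (hp2 j (by omega)).2 i hlt (by rw [← hij']; exact (hp2 i (by omega)).1)
    · exact (hp2 i (by omega)).2 j hlt (by rw [hij']; exact (hp2 j (by omega)).1)
  · intro i j
    have hi := i.2
    have hj := j.2
    have key : ∀ a b : ℕ, a < d + 2 → b < d + 2 → Inc (p a) (p b) → b ≤ a + 1 := by
      intro a b ha hb hab
      by_contra hlt
      exact (hp2 b (by omega)).2 (a + 1) (by omega) ⟨p a, (hp2 a (by omega)).1, Or.inr hab⟩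
    constructor
    · intro hinc
      have h3 := key i j hi hj hinc
      have h4 := key j i hj hi hinc.symm
      have h5 : (i : ℕ) ≠ j := by
        intro h6
        exact hinc.ne (congrArg p h6)
      omega
    · rintro (h3 | h3)
      · have := hp3 i (by omega)
        rw [h3] at this
        exact this
      · have := hp3 j (by omega)
        rw [h3] at this
        exact this.symm

end path

end Pool.Agent.X11.DS
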