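import Pool.Agent.X11.DS.Spec

/-!
Series-parallel posets: their incomparability graphs have components of diameter at most two, and
the components are series-parallel.
-/

set_option autoImplicit false

open Finset

namespace Pool.Agent.X11.DS

open Pool.Agent.H13R3.WB Pool.Agent.H931R3.Bal

section maps

variable {P R : Type} [PartialOrder P] [PartialOrder R]

lemma near_map (f : P → R) (hf : ∀ x y, Inc x y → Inc (f x) (f y)) {n : ℕ} {x y : P}
    (h : Near n x y) : Near n (f x) (f y) := by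
  induction n generalizing y with
  | zero => exact congrArg f h
  | succ n ih =>
    obtain ⟨z, hz, hzy⟩ := h
    exact ⟨f z, ih hz, hzy.imp (congrArg f) (hf z y)⟩

lemma inc_iso (e : R ≃o P) (x y : R) : Inc (e x) (e y) ↔ Inc x y := by
  unfold Inc
  rw [e.le_iff_le, e.le_iff_le]

lemma diam_iso (e : R ≃o P) {d : ℕ} (h : DiamLe d P) : DiamLe d R := by
  intro x y hxy
  have h1 : Relation.ReflTransGen Inc (e x) (e y) :=
    hxy.lift e (fun a b hab => (inc_iso e a b).2 hab)
  have h2 := near_map e.symm (fun a b hab => (inc_iso e.symm a b).2 hab) (h _ _ h1)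
  simpa using h2

lemma sp_iso (e : Nonempty (R ≃o P)) (h : SeriesParallel P) : SeriesParallel R := by
  obtain ⟨e⟩ := e
  cases h with
  | one _ e' => exact SeriesParallel.one _ (e'.map fun f => e.trans f)
  | disj A B _ h1 h2 e' => exact SeriesParallel.disj A B _ h1 h2 (e'.map fun f => e.trans f)
  | direct A B _ h1 h2 e' => exact SeriesParallel.direct A B _ h1 h2 (e'.map fun f => e.trans f)

end maps

section sums

variable {P Q : Type} [PartialOrder P] [PartialOrder Q]

lemma inc_sum (p : P) (q : Q) : Inc (Sum.inl p : P ⊕ Q) (Sum.inr q) :=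
  ⟨Sum.not_inl_le_inr, Sum.not_inr_le_inl⟩

lemma near_sum (hP : Nonempty P) (hQ : Nonempty Q) (x y : P ⊕ Q) : Near 2 x y := by
  obtain ⟨p₀⟩ := hP
  obtain ⟨q₀⟩ := hQ
  rcases x with x | x <;> rcases y with y | y
  · exact near_two (inc_sum x q₀) (inc_sum y q₀).symm
  · exact near_mono (by norm_num) (near_one (inc_sum x y))
  · exact near_mono (by norm_num) (near_one (inc_sum y x).symm)
  · exact near_two (inc_sum p₀ x).symm (inc_sum p₀ y)

lemma inc_lex_ll (p p' : P) : Inc (toLex (Sum.inl p) : P ⊕ₗ Q) (toLex (Sum.inl p')) ↔ Inc p p' := by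
  unfold Inc
  rw [Sum.Lex.inl_le_inl_iff, Sum.Lex.inl_le_inl_iff]

lemma inc_lex_rr (q q' : Q) : Inc (toLex (Sum.inr q) : P ⊕ₗ Q) (toLex (Sum.inr q')) ↔ Inc q q' := by
  unfold Inc
  rw [Sum.Lex.inr_le_inr_iff, Sum.Lex.inr_le_inr_iff]

lemma not_inc_lex (p : P) (q : Q) : ¬ Inc (toLex (Sum.inl p) : P ⊕ₗ Q) (toLex (Sum.inr q)) :=
  fun h => h.1 (Sum.Lex.inl_le_inr _ _)

lemma rtg_lex_l {p : P} {z : P ⊕ₗ Q}
    (h : Relation.ReflTransGen Inc (toLex (Sum.inl p) : P ⊕ₗ Q) z) :
    ∃ p' : P, z = toLex (Sum.inl p') ∧ Relation.ReflTransGen Inc p p' := by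
  induction h with
  | refl => exact ⟨p, rfl, Relation.ReflTransGen.refl⟩
  | @tail b c _ hbc ih =>
    obtain ⟨p', rfl, hp'⟩ := ih
    rcases c with c | c
    · exact ⟨c, rfl, hp'.tail ((inc_lex_ll p' c).1 hbc)⟩
    · exact absurd hbc (not_inc_lex p' c)

lemma rtg_lex_r {q : Q} {z : P ⊕ₗ Q}
    (h : Relation.ReflTransGen Inc (toLex (Sum.inr q) : P ⊕ₗ Q) z) :
    ∃ q' : Q, z = toLex (Sum.inr q') ∧ Relation.ReflTransGen Inc q q' := by
  induction h with
  | refl => exact ⟨q, rfl, Relation.ReflTransGen.refl⟩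
  | @tail b c _ hbc ih =>
    obtain ⟨q', rfl, hq'⟩ := ih
    rcases c with c | c
    · exact absurd hbc.symm (not_inc_lex c q')
    · exact ⟨c, rfl, hq'.tail ((inc_lex_rr q' c).1 hbc)⟩

lemma diam_lex {d : ℕ} (hP : DiamLe d P) (hQ : DiamLe d Q) : DiamLe d (P ⊕ₗ Q) := by
  intro x y hxy
  rcases x with x | x
  · obtain ⟨p', rfl, h⟩ := rtg_lex_l (p := x) hxy
    exact near_map (fun p : P => (toLex (Sum.inl p) : P ⊕ₗ Q))
      (fun a b hab => (inc_lex_ll a b).2 hab) (hP _ _ h)
  · obtain ⟨q', rfl, h⟩ := rtg_lex_r (q := x) hxy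
    exact near_map (fun q : Q => (toLex (Sum.inr q) : P ⊕ₗ Q))
      (fun a b hab => (inc_lex_rr a b).2 hab) (hQ _ _ h)

end sums

theorem sp_diam {R : Type} [PartialOrder R] (h : SeriesParallel R) : Nonempty R ∧ DiamLe 2 R := by
  induction h with
  | one P e =>
    obtain ⟨e⟩ := e
    refine ⟨⟨e.symm 0⟩, fun x y _ => near_mono (Nat.zero_le 2) ?_⟩
    show x = y
    exact e.injective (Subsingleton.elim _ _)
  | disj P Q R _ _ e ihP ihQ =>
    obtain ⟨e⟩ := e
    refine ⟨⟨e.symm (Sum.inl ihP.1.some)⟩, diam_iso e ?_⟩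
    intro x y _
    exact near_sum ihP.1 ihQ.1 x y
  | direct P Q R _ _ e ihP ihQ =>
    obtain ⟨e⟩ := e
    exact ⟨⟨e.symm (toLex (Sum.inl ihP.1.some))⟩, diam_iso e (diam_lex ihP.2 ihQ.2)⟩

section compiso

variable {P R : Type} [PartialOrder P] [PartialOrder R]

/-- an embedding of a poset onto a union of components gives isomorphic components -/
lemma comp_iso (f : P ↪o R) (p : P)
    (hf : ∀ z, Relation.ReflTransGen Inc (f p) z → ∃ p', z = f p' ∧
      Relation.ReflTransGen Inc p p') : Nonempty (comp (f p) ≃o comp p) := by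
  classical
  have h1 : ∀ a b : P, Inc a b → Inc (f a) (f b) := by
    intro a b h
    unfold Inc at h ⊢
    rwa [f.le_iff_le, f.le_iff_le]
  let g : comp p ↪o comp (f p) :=
    ⟨⟨fun a => ⟨f a.1, (Relation.ReflTransGen.lift f h1 p a.1
      a.2 : Relation.ReflTransGen Inc (f p) (f a.1))⟩, fun a b hab =>
      Subtype.ext (f.injective (congrArg Subtype.val hab))⟩, by
        intro a b
        exact f.le_iff_le⟩
  refine ⟨(RelIso.ofSurjective g ?_).symm⟩
  rintro ⟨z, hz⟩
  obtain ⟨p', rfl, hp'⟩ := hf z hz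
  exact ⟨⟨p', hp'⟩, rfl⟩

lemma comp_univ {x : R} (h : ∀ y, y ∈ comp x) : Nonempty (comp x ≃o R) :=
  ⟨⟨Equiv.subtypeUnivEquiv h, Iff.rfl⟩⟩

end compiso

theorem sp_comp {R : Type} [PartialOrder R] (h : SeriesParallel R) :
    ∀ x : R, SeriesParallel (comp x) := by
  induction h with
  | one P e =>
    intro x
    refine sp_iso (comp_univ (x := x) ?_) (SeriesParallel.one P e)
    intro y
    obtain ⟨e⟩ := e
    have hxy : x = y := e.injective (Subsingleton.elim _ _)
    rw [hxy]
    exact self_mem_comp y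
  | disj P Q R hP hQ e ihP ihQ =>
    intro x
    refine sp_iso (comp_univ (x := x) ?_) (SeriesParallel.disj P Q R hP hQ e)
    intro y
    obtain ⟨e⟩ := e
    have h1 := near_sum (sp_diam hP).1 (sp_diam hQ).1 (e x) (e y)
    have h2 := near_map e.symm (fun a b hab => (inc_iso e.symm a b).2 hab) h1
    have h3 : Relation.ReflTransGen Inc x y := by simpa using near_rtg h2
    exact h3
  | direct P Q R hP hQ e ihP ihQ =>
    intro x
    obtain ⟨e⟩ := e
    have hfin : ∀ (S : Type) [PartialOrder S] (f : S ↪o (P ⊕ₗ Q)) (s : S), f s = e x →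
        (∀ s' : S, SeriesParallel (comp s')) →
        (∀ z, Relation.ReflTransGen Inc (f s) z → ∃ s', z = f s' ∧
          Relation.ReflTransGen Inc s s') → SeriesParallel (comp x) := by
      intro S _ f s hs hS hz
      let g : S ↪o R := f.trans e.symm.toOrderEmbedding
      have hg : g s = x := by
        show e.symm (f s) = x
        rw [hs]
        simp
      have h1 : ∀ z, Relation.ReflTransGen Inc (g s) z → ∃ s', z = g s' ∧
          Relation.ReflTransGen Inc s s' := by
        intro z hz'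
        have h2 : Relation.ReflTransGen Inc (e (g s)) (e z) :=
          hz'.lift e (fun a b hab => (inc_iso e a b).2 hab)
        have h3 : e (g s) = f s := by
          show e (e.symm (f s)) = f s
          simp
        rw [h3] at h2
        obtain ⟨s', h4, h5⟩ := hz _ h2
        refine ⟨s', ?_, h5⟩
        show z = e.symm (f s')
        rw [← h4]
        simp
      have h2 := comp_iso g s h1
      rw [hg] at h2
      exact sp_iso h2 (hS s)
    rcases hx : e x with p | q
    · refine hfin P ⟨⟨fun p : P => (toLex (Sum.inl p) : P ⊕ₗ Q), fun a b hab => by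
        simpa using hab⟩, Sum.Lex.inl_le_inl_iff⟩ p hx.symm ihP (fun z hz => rtg_lex_l hz)
    · refine hfin Q ⟨⟨fun q : Q => (toLex (Sum.inr q) : P ⊕ₗ Q), fun a b hab => by
        simpa using hab⟩, Sum.Lex.inr_le_inr_iff⟩ q hx.symm ihQ (fun z hz => rtg_lex_r hz)

/-! ### widths -/

lemma width_comp {P : Type} [PartialOrder P] {w : ℕ} (hw : 1 ≤ w) (h : HasWidth P w) :
    ∃ x : P, HasWidth (comp x) w := by
  classical
  obtain ⟨⟨s, hs, hc⟩, hmax⟩ := h
  obtain ⟨x, hx⟩ := Finset.card_pos.1 (show 0 < s.card by omega)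
  have hmem : ∀ y ∈ s, y ∈ comp x := by
    intro y hy
    rcases eq_or_ne x y with rfl | hxy
    · exact self_mem_comp x
    · exact comp_step (self_mem_comp x) ⟨hs hx hy hxy, hs hy hx hxy.symm⟩
  refine ⟨x, ⟨s.subtype (fun y => y ∈ comp x), ?_, ?_⟩, ?_⟩
  · intro a ha b hb hab hle
    have ha' : a.1 ∈ s := by simpa using ha
    have hb' : b.1 ∈ s := by simpa using hb
    exact hs ha' hb' (fun h => hab (Subtype.ext h)) hle
  · rw [card_subtype, filter_true_of_mem hmem, hc]
  · intro t ht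
    have h1 : (t.map (Function.Embedding.subtype _)).card = t.card := card_map _
    rw [← h1]
    apply hmax
    intro a ha b hb hab hle
    rw [mem_coe, mem_map] at ha hb
    obtain ⟨a', ha', rfl⟩ := ha
    obtain ⟨b', hb', rfl⟩ := hb
    exact ht ha' hb' (fun h => hab (by rw [h])) hle

end Pool.Agent.X11.DS
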