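import Pool.Agent.X11.DS.SP
import Pool.Agent.TH447.KS.Upper

/-!
The posets of `Pool.Agent.H293R3.BC` are series-parallel.
-/

set_option autoImplicit false

open Finset

namespace Pool.Agent.X11.DS

open Pool.Agent.H293R3.BC Pool.Agent.H13R3.WB Pool.Agent.H931R3.Bal
open Pool.Agent.TH447.KS (CT poOf)

/-- the order given by `r` is series-parallel -/
def SPR {n : ℕ} (r : Fin n → Fin n → Prop) : Prop := ∀ h : IsPo r, @SeriesParallel (CT n) (poOf r h)

/-- adding an element -/
def eT (n : ℕ) : CT (n + 1) ≃ Fin 1 ⊕ CT n where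
  toFun a := Fin.cases (motive := fun _ => Fin 1 ⊕ CT n) (Sum.inl 0) (fun i => Sum.inr i) a
  invFun := Sum.elim (fun _ => (0 : Fin (n + 1))) (fun i => Fin.succ i)
  left_inv a := by
    rcases Fin.eq_zero_or_eq_succ a with h | ⟨i, h⟩
    · subst h; rfl
    · subst h; rfl
  right_inv a := by
    rcases a with a | a
    · simp only [Sum.elim_inl, Fin.cases_zero]
      congr 1
      exact Subsingleton.elim _ _
    · simp only [Sum.elim_inr, Fin.cases_succ]

lemma spr_false {n : ℕ} {r : Fin n → Fin n → Prop} (hr : IsPo r) (h : SPR r) :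
    SPR (ext False r) := by
  intro h'
  letI o1 : PartialOrder (CT n) := poOf r hr
  letI o2 : PartialOrder (CT (n + 1)) := poOf _ h'
  refine SeriesParallel.disj (Fin 1) (CT n) (CT (n + 1)) sp_one (h hr) ⟨⟨eT n, ?_⟩⟩
  intro a b
  rcases Fin.eq_zero_or_eq_succ a with ha | ⟨i, ha⟩ <;>
    rcases Fin.eq_zero_or_eq_succ b with hb | ⟨j, hb⟩
  · subst ha hb
    exact ⟨fun _ => trivial, fun _ => le_rfl⟩
  · subst ha hb
    exact ⟨fun h => absurd h Sum.not_inl_le_inr, fun h => absurd h (fun h => h)⟩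
  · subst ha hb
    exact ⟨fun h => absurd h Sum.not_inr_le_inl, fun h => absurd h (fun h => h)⟩
  · subst ha hb
    exact Sum.inr_le_inr_iff

lemma spr_true {n : ℕ} {r : Fin n → Fin n → Prop} (hr : IsPo r) (h : SPR r) :
    SPR (ext True r) := by
  intro h'
  letI o1 : PartialOrder (CT n) := poOf r hr
  letI o2 : PartialOrder (CT (n + 1)) := poOf _ h'
  refine SeriesParallel.direct (Fin 1) (CT n) (CT (n + 1)) sp_one (h hr)
    ⟨⟨(eT n).trans toLex, ?_⟩⟩
  intro a b
  rcases Fin.eq_zero_or_eq_succ a with ha | ⟨i, ha⟩ <;>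
    rcases Fin.eq_zero_or_eq_succ b with hb | ⟨j, hb⟩
  · subst ha hb
    exact ⟨fun _ => trivial, fun _ => le_rfl⟩
  · subst ha hb
    exact ⟨fun _ => trivial, fun _ => Sum.Lex.inl_le_inr _ _⟩
  · subst ha hb
    exact ⟨fun h => absurd h Sum.Lex.not_inr_le_inl, fun h => absurd h (fun h => h)⟩
  · subst ha hb
    exact Sum.Lex.inr_le_inr_iff

variable {w n : ℕ} {r : Fin n → Fin n → Prop} {c b : ℝ}

/-- one step of the construction of `Pool.Agent.H293R3.BC.step`, with series-parallel posets -/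
theorem step2 (hw : 1 ≤ w) (hn1 : 1 ≤ n) (hn : n + 1 ≤ 3 * w - 1)
    (h : G w n r (((n : ℝ) + 1) / 2) b) (hb : b ≤ 1 / 2 - 1 / (12 * ((w : ℝ) + 1) - 8))
    (hrep : SPR r) :
    ∃ (m : ℕ) (q : Fin m → Fin m → Prop), 1 ≤ m ∧ m + 1 ≤ 3 * (w + 1) - 1 ∧
      G (w + 1) m q (((m : ℝ) + 1) / 2) (1 / 2 - 1 / (12 * ((w : ℝ) + 1) - 8)) ∧ SPR q := by
  have hnR : ((n : ℝ) + 1) ≤ 3 * w - 1 := by
    have h1 : n + 1 + 1 ≤ 3 * w := by omega
    have h2 : ((n + 1 + 1 : ℕ) : ℝ) ≤ ((3 * w : ℕ) : ℝ) := by exact_mod_cast h1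
    push_cast at h2
    linarith
  have hn1R : (1 : ℝ) ≤ n := by exact_mod_cast hn1
  have hs : ∀ (n : ℕ) (r : Fin n → Fin n → Prop), 0 < E r → ∀ y,
      ht (ext True r) y.succ = ht r y + 1 := by
    intro n r hE y
    unfold ht
    rw [S_true_succ, E_true]
    field_simp
  have hz : ∀ (n : ℕ) (r : Fin n → Fin n → Prop), 0 < E r → ht (ext True r) 0 = 1 := by
    intro n r hE
    unfold ht
    rw [S_true_zero, E_true, div_self hE.ne']
  by_cases hk : ∀ y, 1 / 4 ≤ |ht r y - (n : ℝ) / 2|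
  · -- one new least element
    have h1 := h.bot hw
    have h2 : G w (n + 1) (ext True r) ((((n + 1 : ℕ) : ℝ) + 1) / 2) b :=
      h1.mono (by push_cast; linarith)
    have h3 := h2.par (b' := 1 / 2 - 1 / (12 * ((w : ℝ) + 1) - 8)) le_rfl hb (by
      push_cast
      have : 1 / (12 * ((w : ℝ) + 1) - 8) ≤ 1 / (4 * ((n : ℝ) + 1 + 1)) := by
        apply one_div_le_one_div_of_le (by positivity)
        linarith
      linarith) (by
      intro y
      push_cast
      rcases Fin.eq_zero_or_eq_succ y with rfl | ⟨i, rfl⟩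
      · rw [hz n r h.pos, abs_sub_comm]
        refine le_trans ?_ (le_abs_self _)
        linarith
      · rw [hs n r h.pos]
        have := hk i
        have e : ht r i + 1 - ((n : ℝ) + 1 + 1) / 2 = ht r i - (n : ℝ) / 2 := by ring
        rw [e]
        exact this)
    refine ⟨n + 1 + 1, ext False (ext True r), by omega, by omega, ?_, spr_false (isPo_ext _ h.po) (spr_true h.po hrep)⟩
    have e : (((n + 1 : ℕ) : ℝ) + 1) / 2 * (((n + 1 : ℕ) : ℝ) + 2) / (((n + 1 : ℕ) : ℝ) + 1) =
        (((n + 1 + 1 : ℕ) : ℝ) + 1) / 2 := by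
      push_cast
      field_simp
      ring
    rw [e] at h3
    exact h3
  · -- two new elements
    push Not at hk
    obtain ⟨y0, hy0⟩ := hk
    have hy0' := abs_lt.1 hy0
    have hn2 : (2 : ℝ) ≤ n := by
      have h1 := h.one_le y0
      have h2 : (3 / 2 : ℝ) < n := by linarith [hy0'.2]
      have h3 : 1 < n := by
        by_contra h4
        have h5 : (n : ℝ) ≤ 1 := by exact_mod_cast not_lt.1 h4
        linarith
      exact_mod_cast h3
    have hk2 : ∀ y, 1 / 4 ≤ |ht r y - ((n : ℝ) - 1) / 2| := by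
      intro y
      by_contra hy
      rw [not_le] at hy
      have hy' := abs_lt.1 hy
      by_cases hyy : y = y0
      · subst hyy
        linarith [hy'.2, hy0'.1, hy'.1, hy0'.2]
      · have h1 := h.sep y y0 hyy (by linarith [hy'.2]) (by linarith [hy0'.2])
        rcases le_abs.1 h1 with h2 | h2
        · linarith [hy'.2, hy0'.1]
        · linarith [hy'.1, hy0'.2]
    have h1 := (h.bot hw).bot hw
    have h2 : G w (n + 1 + 1) (ext True (ext True r)) ((((n + 1 + 1 : ℕ) : ℝ) + 1) / 2) b :=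
      h1.mono (by push_cast; linarith)
    have hE1 : 0 < E (ext True r) := by rw [E_true]; exact h.pos
    have h3 := h2.par (b' := 1 / 2 - 1 / (12 * ((w : ℝ) + 1) - 8)) le_rfl hb (by
      push_cast
      have : 1 / (12 * ((w : ℝ) + 1) - 8) ≤ 1 / (4 * ((n : ℝ) + 1 + 1 + 1)) := by
        apply one_div_le_one_div_of_le (by positivity)
        linarith
      linarith) (by
      intro y
      push_cast
      rcases Fin.eq_zero_or_eq_succ y with rfl | ⟨i, rfl⟩
      · rw [hz _ _ hE1, abs_sub_comm]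
        refine le_trans ?_ (le_abs_self _)
        linarith
      · rw [hs _ _ hE1]
        rcases Fin.eq_zero_or_eq_succ i with rfl | ⟨j, rfl⟩
        · rw [hz _ _ h.pos, abs_sub_comm]
          refine le_trans ?_ (le_abs_self _)
          linarith
        · rw [hs _ _ h.pos]
          have := hk2 j
          have e : ht r j + 1 + 1 - ((n : ℝ) + 1 + 1 + 1) / 2 = ht r j - ((n : ℝ) - 1) / 2 := by
            ring
          rw [e]
          exact this)
    refine ⟨n + 1 + 1 + 1, ext False (ext True (ext True r)), by omega, by omega, ?_,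
      spr_false (isPo_ext _ (isPo_ext _ h.po))
        (spr_true (isPo_ext _ h.po) (spr_true h.po hrep))⟩
    have e : (((n + 1 + 1 : ℕ) : ℝ) + 1) / 2 * (((n + 1 + 1 : ℕ) : ℝ) + 2) /
        (((n + 1 + 1 : ℕ) : ℝ) + 1) = (((n + 1 + 1 + 1 : ℕ) : ℝ) + 1) / 2 := by
      push_cast
      field_simp
      ring
    rw [e] at h3
    exact h3

theorem exists_poset2 (w : ℕ) (hw : 1 ≤ w) : ∃ (n : ℕ) (r : Fin n → Fin n → Prop), 1 ≤ n ∧
    n + 1 ≤ 3 * w - 1 ∧ G w n r (((n : ℝ) + 1) / 2) (1 / 2 - 1 / (12 * (w : ℝ) - 8)) ∧ SPR r := by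
  induction w, hw using Nat.le_induction with
  | base =>
    refine ⟨1, _, le_rfl, by omega, base _, fun h => ?_⟩
    letI : PartialOrder (CT 1) := poOf _ h
    refine SeriesParallel.one (CT 1) ⟨⟨Equiv.refl (Fin 1), ?_⟩⟩
    intro a b
    exact ⟨fun _ => trivial, fun _ => (Subsingleton.elim _ _ : (Equiv.refl (Fin 1)) a =
      (Equiv.refl (Fin 1)) b).le⟩
  | succ w hw ih =>
    obtain ⟨n, r, hn1, hn, h, hrep⟩ := ih
    have hw1 : (1 : ℝ) ≤ w := by exact_mod_cast hw
    obtain ⟨m, q, hm1, hm, hq, hqr⟩ := step2 hw hn1 hn h (by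
      have : 1 / (12 * ((w : ℝ) + 1) - 8) ≤ 1 / (12 * (w : ℝ) - 8) := by
        apply one_div_le_one_div_of_le
        · linarith
        · linarith
      linarith) hrep
    refine ⟨m, q, hm1, hm, ?_, hqr⟩
    push_cast
    exact hq

theorem exists_sp (w : ℕ) (hw : 1 ≤ w) : ∃ (P : Type) (_ : Fintype P) (_ : PartialOrder P),
    SeriesParallel P ∧ HasWidth P w ∧ balance P ≤ 1 / 2 - 1 / (12 * (w : ℝ) - 8) := by
  obtain ⟨n, r, hn1, -, h, hrep⟩ := exists_poset2 w hw
  letI : PartialOrder (CT n) := poOf r h.po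
  refine ⟨CT n, inferInstance, inferInstance, ?_, ?_, ?_⟩
  · exact hrep h.po
  · refine ⟨?_, ?_⟩
    · obtain ⟨s, hs1, hs2⟩ := h.wid
      exact ⟨s, fun a ha b hb hab => hs2 a ha b hb hab, hs1⟩
    · intro s hs
      exact h.wid_le s (fun a ha b hb hab => hs ha hb hab)
  · have hcard : Fintype.card (CT n) = n := Fintype.card_fin n
    have hne : Nonempty (CT n) := ⟨(⟨0, hn1⟩ : Fin n)⟩
    have hb0 : (0 : ℝ) ≤ 1 / 2 - 1 / (12 * (w : ℝ) - 8) := by
      have hw1 : (1 : ℝ) ≤ w := by exact_mod_cast hw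
      have : 1 / (12 * (w : ℝ) - 8) ≤ 1 / 4 := by
        apply one_div_le_one_div_of_le (by norm_num)
        linarith
      linarith
    have hprob : ∀ x y : CT n, prob (CT n) x y = A r x y / E r := by
      intro x y
      rw [Pool.Agent.TH447.KS.prob_card hcard, ← card_A, ← card_E]
      rfl
    have : Nonempty (CT n × CT n) := inferInstance
    unfold balance
    apply ciSup_le
    rintro ⟨x, y⟩
    simp only
    by_cases hxy : x ≤ y
    · rw [prob_eq_zero_of_le hxy]
      exact (min_le_right _ _).trans hb0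
    · by_cases hyx : y ≤ x
      · rw [prob_eq_zero_of_le hyx]
        exact (min_le_left _ _).trans hb0
      · rw [hprob, hprob]
        exact h.bal x y hxy hyx


end Pool.Agent.X11.DS
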