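import Pool.Agent.X11.DS.Inc
import Pool.Agent.Y491.ID.Main

/-!
The balance constants below `c < 1/2` of posets whose incomparability graph has components of
bounded diameter.
-/

set_option autoImplicit false

open Finset

namespace Pool.Agent.X11.DS

open Pool.Agent.H13R3.WB Pool.Agent.H931R3.Bal

section

variable {P : Type} [Fintype P] [PartialOrder P]

lemma prob_nonneg (x y : P) : 0 ≤ prob P x y := by
  unfold prob
  positivity

lemma prob_zero {x y : P} (h : x ≤ y) : prob P y x = 0 := by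
  rw [prob_eq rfl]
  rcases h.lt_or_eq with h | h
  · exact pr_zero_of_lt h
  · rw [h, pr_self]

lemma bal_nonneg : 0 ≤ balance P :=
  Real.iSup_nonneg fun _ => le_min (prob_nonneg _ _) (prob_nonneg _ _)

lemma bal_cases : balance P = 0 ∨ ∃ x y : P, Inc x y ∧
    balance P = min (prob P x y) (prob P y x) := by
  rcases isEmpty_or_nonempty P with hP | hP
  · left
    unfold balance
    exact Real.iSup_of_isEmpty _
  · obtain ⟨⟨x, y⟩, hp⟩ := exists_eq_ciSup_of_finite
      (f := fun p : P × P => min (prob P p.1 p.2) (prob P p.2 p.1))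
    simp only at hp
    by_cases h1 : x ≤ y
    · left
      unfold balance
      rw [← hp, prob_zero h1]
      exact min_eq_right (prob_nonneg _ _)
    · by_cases h2 : y ≤ x
      · left
        unfold balance
        rw [← hp, prob_zero h2]
        exact min_eq_left (prob_nonneg _ _)
      · exact Or.inr ⟨x, y, ⟨h1, h2⟩, hp.symm⟩

lemma prob_comp (x₀ : P) [Fintype (comp x₀)] (x y : comp x₀) :
    prob P x.1 y.1 = prob (comp x₀) x y := by
  rw [prob_eq rfl, prob_eq rfl, pr_autonomous (comp_auto x₀) rfl rfl]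

lemma bal_comp_le (x₀ : P) [Fintype (comp x₀)] : balance (comp x₀) ≤ balance P := by
  have : Nonempty (comp x₀) := ⟨⟨x₀, self_mem_comp x₀⟩⟩
  exact balance_autonomous (comp_auto x₀)

lemma prob_frac {N : ℕ} (hN : Fintype.card P ≤ N) (x y : P) :
    ∃ a b : ℕ, a ≤ N.factorial ∧ b ≤ N.factorial ∧ prob P x y = (a : ℝ) / b := by
  have h0 : Nat.card (P ≃ Fin (Fintype.card P)) ≤ N.factorial := by
    classical
    rw [Nat.card_eq_fintype_card, Fintype.card_equiv (Fintype.equivFin P)]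
    exact Nat.factorial_le hN
  refine ⟨Nat.card {f : P ≃ Fin (Fintype.card P) // Monotone f ∧ f x < f y},
    Nat.card {f : P ≃ Fin (Fintype.card P) // Monotone f}, ?_, ?_, rfl⟩
  · exact (Finite.card_subtype_le _).trans h0
  · exact (Finite.card_subtype_le _).trans h0

end

/-- fractions with small numerators and denominators -/
def Fr (N : ℕ) : Set ℝ := {v | ∃ a b : ℕ, a ≤ N ∧ b ≤ N ∧ v = (a : ℝ) / b}

lemma Fr_finite (N : ℕ) : (Fr N).Finite := by
  refine Set.Finite.subset (((Set.finite_Iic N).prod (Set.finite_Iic N)).image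
    (fun p : ℕ × ℕ => (p.1 : ℝ) / p.2)) ?_
  rintro v ⟨a, b, ha, hb, rfl⟩
  exact ⟨(a, b), ⟨ha, hb⟩, rfl⟩

lemma Fr_rat {N : ℕ} {v : ℝ} (h : v ∈ Fr N) : ∃ q : ℚ, (q : ℝ) = v := by
  obtain ⟨a, b, -, -, rfl⟩ := h
  exact ⟨(a : ℚ) / b, by push_cast; rfl⟩

/-- a number of elements such that a poset with balance constant less than `1/2 - ε` has fewer
elements incomparable to any given one -/
def Thin (ε : ℝ) (D : ℕ) : Prop := ∀ (P : Type) [Fintype P] [PartialOrder P],
  balance P < 1 / 2 - ε → ∀ x : P, Nat.card {y : P // Inc x y} + 1 ≤ D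

theorem exists_thin : ∃ B : ℝ, 0 < B ∧ ∀ ε : ℝ, 0 < ε → ε ≤ 1 / 2 →
    Thin ε ⌈Real.exp (B * Real.log (2 / ε) ^ 3 / ε ^ 4)⌉₊ := by
  obtain ⟨B, hB, h⟩ := Pool.Agent.Y491.ID.incomparable_balance
  refine ⟨B, hB, fun ε h1 h2 P _ _ hP x => ?_⟩
  by_contra hcon
  have h3 : Real.exp (B * Real.log (2 / ε) ^ 3 / ε ^ 4) ≤
      Nat.card {y : P // ¬ x ≤ y ∧ ¬ y ≤ x} := by
    have h4 : ⌈Real.exp (B * Real.log (2 / ε) ^ 3 / ε ^ 4)⌉₊ ≤
        Nat.card {y : P // ¬ x ≤ y ∧ ¬ y ≤ x} := by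
      have h5 : Nat.card {y : P // Inc x y} = Nat.card {y : P // ¬ x ≤ y ∧ ¬ y ≤ x} := rfl
      omega
    exact (Nat.le_ceil _).trans (by exact_mod_cast h4)
  exact absurd (h ε h1 h2 P x h3) (not_le.2 hP)

section

variable {P : Type} [Fintype P] [PartialOrder P]

/-- the component of any element is small -/
lemma card_comp {ε : ℝ} {D d : ℕ} (hT : Thin ε D) (hd : DiamLe d P) (hP : balance P < 1 / 2 - ε)
    (x : P) [Fintype (comp x)] : Fintype.card (comp x) ≤ D ^ d := by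
  rw [← Nat.card_eq_fintype_card]
  exact card_of_near (hT (comp x) ((bal_comp_le x).trans_lt hP)) ⟨x, self_mem_comp x⟩
    (fun y => comp_near hd x _ y)

theorem bal_mem {ε : ℝ} {D d : ℕ} (hT : Thin ε D) (hd : DiamLe d P) (hP : balance P < 1 / 2 - ε) :
    balance P ∈ Fr ((D ^ d).factorial) := by
  classical
  rcases bal_cases (P := P) with h | ⟨x, y, hxy, h⟩
  · exact ⟨0, 0, by omega, by omega, by rw [h]; simp⟩
  · have hy : y ∈ comp x := comp_step (self_mem_comp x) hxy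
    have hc := card_comp hT hd hP x
    have e1 : prob P x y = prob (comp x) ⟨x, self_mem_comp x⟩ ⟨y, hy⟩ :=
      prob_comp x ⟨x, self_mem_comp x⟩ ⟨y, hy⟩
    have e2 : prob P y x = prob (comp x) ⟨y, hy⟩ ⟨x, self_mem_comp x⟩ :=
      prob_comp x ⟨y, hy⟩ ⟨x, self_mem_comp x⟩
    rw [h, e1, e2]
    rcases min_choice (prob (comp x) ⟨x, self_mem_comp x⟩ ⟨y, hy⟩)
      (prob (comp x) ⟨y, hy⟩ ⟨x, self_mem_comp x⟩) with h3 | h3
    · rw [h3]; exact prob_frac hc _ _
    · rw [h3]; exact prob_frac hc _ _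

end

/-- **Finite spectrum below `c < 1/2`.** -/
theorem finite_spectrum (d : ℕ) (c : ℝ) (hc : c < 1 / 2) :
    {v : ℝ | v ≤ c ∧ ∃ (P : Type) (_ : Fintype P) (_ : PartialOrder P), DiamLe d P ∧
      balance P = v}.Finite := by
  obtain ⟨B, -, h⟩ := exists_thin
  set ε : ℝ := min (1 / 2) ((1 / 2 - c) / 2) with hε
  have hε0 : 0 < ε := lt_min (by norm_num) (by linarith)
  have hεc : c < 1 / 2 - ε := by
    have := min_le_right (1 / 2) ((1 / 2 - c) / 2)
    rw [← hε] at this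
    linarith
  have hT := h ε hε0 (min_le_left _ _)
  refine (Fr_finite ((⌈Real.exp (B * Real.log (2 / ε) ^ 3 / ε ^ 4)⌉₊ ^ d).factorial)).subset ?_
  rintro v ⟨hv, P, _, _, hd, rfl⟩
  exact bal_mem hT hd (hv.trans_lt hεc)

end Pool.Agent.X11.DS
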